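import Pool.Agent.N437.RL.Fin5
/-!
# The sparse random removal lemma near the 2-density threshold

For every graph `H` with at least one edge, every `ε > 0` and all constants `0 < c < C` there is
`δ > 0` such that, whenever `c n^(-1/m₂(H)) ≤ p ≤ C n^(-1/m₂(H))`, asymptotically almost surely
every subgraph of the binomial random graph with at most `δ p^e(H) n^v(H)` copies of `H` can be
made `H`-free by deleting at most `ε p n²` edges.
-/

set_option autoImplicit false

open Filter Topology

namespace Pool.Agent.Results.MP_9c932e_co.SparseRemoval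

/-- The 2-density of `H`: if `H` has at least three vertices, the largest value of
`(e(H') - 1) / (v(H') - 2)` over the subgraphs `H'` of `H` with at least three vertices (the set of
these values is finite and nonempty, so the supremum is a maximum); otherwise `1 / 2`. -/
noncomputable def m2 {V : Type} [Fintype V] (H : SimpleGraph V) : ℝ :=
  if 3 ≤ Fintype.card V then
    sSup {x : ℝ | ∃ H' : H.Subgraph, 3 ≤ H'.verts.ncard ∧
      x = ((H'.edgeSet.ncard : ℝ) - 1) / ((H'.verts.ncard : ℝ) - 2)}
  else 1 / 2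

/-- Every set of edges of `H` and every set of at least three vertices containing their ends
gives a lower bound on the 2-density. -/
theorem le_m2 {V : Type} [Fintype V] [DecidableEq V] (H : SimpleGraph V)
    (A : Finset (Sym2 V)) (hA : A ⊆ N437.RL.ef H) (S : Finset V)
    (hS : ∀ e ∈ A, ∀ a ∈ e, a ∈ S) (h3 : 3 ≤ S.card) :
    ((A.card : ℝ) - 1) / ((S.card : ℝ) - 2) ≤ m2 H := by
  have hV : 3 ≤ Fintype.card V := h3.trans (Finset.card_le_univ S)
  unfold m2
  rw [if_pos hV]
  refine le_csSup ?_ ?_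
  · refine Set.Finite.bddAbove ?_
    refine (Set.finite_range fun H' : H.Subgraph =>
      ((H'.edgeSet.ncard : ℝ) - 1) / ((H'.verts.ncard : ℝ) - 2)).subset ?_
    rintro x ⟨H', _, rfl⟩
    exact ⟨H', rfl⟩
  · obtain ⟨H', hH'⟩ : ∃ H' : H.Subgraph, H' =
        { verts := (S : Set V)
          Adj := fun a b => s(a, b) ∈ A
          adj_sub := fun {a b} h => N437.RL.mem_ef.1 (hA h)
          edge_vert := fun {a b} h => hS s(a, b) h a (by simp)
          symm := ⟨fun a b h => by rwa [Sym2.eq_swap]⟩ } := ⟨_, rfl⟩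
    have hv : H'.verts = (S : Set V) := by rw [hH']
    have he : H'.edgeSet = (A : Set (Sym2 V)) := by
      ext e
      induction e with
      | _ a b =>
        rw [SimpleGraph.Subgraph.mem_edgeSet, hH']
        rfl
    refine ⟨H', ?_, ?_⟩
    · rw [hv, Set.ncard_coe_finset]
      exact h3
    · rw [hv, he, Set.ncard_coe_finset, Set.ncard_coe_finset]

/-- **Sparse random removal lemma at the threshold.** -/
theorem result {V : Type} [Fintype V] (H : SimpleGraph V) (hH : H ≠ ⊥) (ε c C : ℝ) (hε : 0 < ε)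
    (hc : 0 < c) (hcC : c < C) :
    ∃ δ : ℝ, 0 < δ ∧ ∀ p : ℕ → unitInterval,
      (m2 H = 0 ∨ ∀ᶠ n : ℕ in atTop, c * (n : ℝ) ^ (-1 / m2 H) ≤ (p n : ℝ) ∧
        (p n : ℝ) ≤ C * (n : ℝ) ^ (-1 / m2 H)) →
      Tendsto (fun n : ℕ => SimpleGraph.binomialRandom (Fin n) (p n)
        {G₀ : SimpleGraph (Fin n) | ∀ G ≤ G₀,
          (G.copyCount H : ℝ) ≤ δ * (p n : ℝ) ^ H.edgeSet.ncard * (n : ℝ) ^ Fintype.card V →
          ∃ s : Finset (Sym2 (Fin n)), (s.card : ℝ) ≤ ε * (p n : ℝ) * (n : ℝ) ^ 2 ∧
            H.Free (G.deleteEdges (s : Set (Sym2 (Fin n))))})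
        atTop (𝓝 1) := by
  classical
  have hE : (N437.RL.ef H).Nonempty := by
    rw [← SimpleGraph.edgeSet_nonempty] at hH
    obtain ⟨e, he⟩ := hH
    exact ⟨e, N437.RL.mem_ef.2 he⟩
  exact N437.RL.all_cases H hE (le_m2 H) hε hc (hc.trans hcC)

end Pool.Agent.Results.MP_9c932e_co.SparseRemoval
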